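import Mathlib
import Pool.Agent.H26.HD1

set_option autoImplicit false

open Filter Topology MeasureTheory Set Real
open scoped ENNReal

namespace Pool.Agent.Results.MP_fbd0a7_an.Answer

open H26 HD0

def cg (f : ℝ → ℝ) : Set (ℝ × ℝ) := {A | liminf f (𝓝 A.1) ≤ A.2 ∧ A.2 ≤ limsup f (𝓝 A.1)}

noncomputable def r (α : ℝ) (f g : ℝ → ℝ) : ℝ≥0∞ := haus α (cg f) (cg g)

noncomputable def W (n : ℕ) (f : ℝ → ℝ) (x : ℝ) : ℝ :=
  √(n / π) * ∫ t, f t * exp (-n * (t - x) ^ 2)

noncomputable def P (ρ : ℝ) (f : ℝ → ℝ) (x : ℝ) : ℝ :=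
  1 / (2 * π) * ∫ t in (-π)..π, f (x - t) * ((1 - ρ ^ 2) / (1 - 2 * ρ * cos t + ρ ^ 2))

noncomputable def V (n : ℕ) (f : ℝ → ℝ) (x : ℝ) : ℝ :=
  (n.factorial : ℝ) ^ 2 / (2 * π * (2 * n).factorial) *
    ∫ t in (-π)..π, f (x - t) * (2 * cos (t / 2)) ^ (2 * n)

noncomputable def cW (α : ℝ) : ℝ≥0∞ := sSup {c | ∀ f, Adm f →
  limsup (fun n : ℕ => ENNReal.ofReal (α * √n) * r α f (W n f)) atTop < c → Continuous f}

noncomputable def cP (α : ℝ) : ℝ≥0∞ := sSup {c | ∀ f, Adm f → Function.Periodic f (2 * π) →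
  limsup (fun ρ : ℝ => ENNReal.ofReal (α / (1 - ρ)) * r α f (P ρ f)) (𝓝[<] 1) < c → Continuous f}

noncomputable def cV (α : ℝ) : ℝ≥0∞ := sSup {c | ∀ f, Adm f → Function.Periodic f (2 * π) →
  limsup (fun n : ℕ => ENNReal.ofReal (α * √n) * r α f (V n f)) atTop < c → Continuous f}

lemma flip (F : ℝ → ℝ) : ∫ t in (-π)..π, F t = ∫ t in (-π)..π, F (-t) := by
  rw [intervalIntegral.integral_comp_neg, neg_neg]

theorem result (α : ℝ) (hα : 0 < α) : cW α = ⊤ ∧ cP α = ⊤ ∧ cV α = ⊤ := by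
  refine ⟨top_unique (le_sSup fun f hf h => ?_), top_unique (le_sSup fun f hf _ h => ?_),
    top_unique (le_sSup fun f hf _ h => ?_)⟩
  · refine main env1 aiW hα hα hf (fun n => W n f) _ (fun n x => ?_) (uN α) h
    simp only [W, kW, mul_left_comm (f _), integral_const_mul]
    rw [← integral_add_left_eq_self _ x]
    simp only [add_sub_cancel_left]
  · refine main env1 aiP hα hα hf (fun ρ => P ρ f) _ (fun ρ x => ?_) (uP α) h
    simp only [← int_ind, P, qP, mul_left_comm (f _), intervalIntegral.integral_const_mul]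
    rw [flip]
    simp only [sub_neg_eq_add, cos_neg, add_sub_right_comm]
  · refine main env1 aiV hα hα hf (fun n => V n f) _ (fun n x => ?_) (uN α) h
    simp only [← int_ind, V, qV, mul_left_comm (f _), intervalIntegral.integral_const_mul]
    rw [flip]
    simp only [sub_neg_eq_add, neg_div, cos_neg]
    congr 1
    field_simp

end Pool.Agent.Results.MP_fbd0a7_an.Answer
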